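import Pool.Agent.E8helper17.CND.S

/-!
# Piece CND of project CND
-/

set_option autoImplicit false

namespace Pool.Agent.E8helper9.CND

open H17CND

theorem walk_of_list {V : Type*} (G : SimpleGraph V) : ∀ (l : List V) (u v : V),
    l.Nodup → l.IsChain G.Adj → l.head? = some u → l.getLast? = some v →
    ∃ p : G.Walk u v, p.IsPath ∧ p.support = l
  | [], u, v, _, _, h, _ => by simp at h
  | [a], u, v, _, _, h, h' => by
    simp only [List.head?_cons, Option.some.injEq, List.getLast?_singleton] at h h'
    subst h
    subst h'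
    exact ⟨SimpleGraph.Walk.nil, SimpleGraph.Walk.IsPath.nil, rfl⟩
  | a :: b :: t, u, v, hn, hc, h, h' => by
    simp only [List.head?_cons, Option.some.injEq] at h
    subst h
    rw [List.isChain_cons_cons] at hc
    rw [List.nodup_cons] at hn
    obtain ⟨p, hp, hps⟩ := walk_of_list G (b :: t) b v hn.2 hc.2 rfl (by
      rw [← h']; simp [List.getLast?_cons_cons])
    refine ⟨SimpleGraph.Walk.cons hc.1 p, ?_, ?_⟩
    · rw [SimpleGraph.Walk.cons_isPath_iff]
      exact ⟨hp, by rw [hps]; exact hn.1⟩
    · rw [SimpleGraph.Walk.support_cons, hps]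

theorem list_of_walk {V : Type*} (G : SimpleGraph V) {a b : V} (q : G.Walk a b) (hq : q.IsPath) :
    IsPathList G q.support :=
  ⟨hq.support_nodup, q.isChain_adj_support⟩

theorem path_length_lt {V : Type} [Finite V] (G : SimpleGraph V)
    (hno : ∀ l : List V, IsPathList G l → ¬ ∀ v, v ∈ l) {a b : V} (q : G.Walk a b)
    (hq : q.IsPath) : q.length + 1 < Nat.card V := by
  classical
  haveI := Fintype.ofFinite V
  rw [Nat.card_eq_fintype_card]
  by_contra hcon
  push Not at hcon
  apply hno q.support (list_of_walk G q hq)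
  intro v
  have h1 : q.support.toFinset.card = q.support.length :=
    List.toFinset_card_of_nodup hq.support_nodup
  have h2 : q.support.toFinset = Finset.univ := by
    apply Finset.eq_univ_of_card
    apply le_antisymm (Finset.card_le_univ _)
    rw [h1, SimpleGraph.Walk.length_support]
    exact hcon
  rw [← List.mem_toFinset, h2]
  exact Finset.mem_univ v

theorem miss_path {V : Type} [Finite V] (G : SimpleGraph V) {v w y : V}
    (h : HP G {z | z ≠ y} v w) : ∃ p : G.Walk v w, p.IsPath ∧ (∀ x, x ∈ p.support ↔ x ≠ y) ∧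
      p.length + 2 = Nat.card V := by
  classical
  haveI := Fintype.ofFinite V
  obtain ⟨l, hl, h1, h2, h3⟩ := h
  obtain ⟨p, hp, hps⟩ := walk_of_list G l v w hl.1 hl.2 h1 h2
  have h3' : ∀ x, x ∈ p.support ↔ x ≠ y := by
    intro x
    rw [hps]
    exact h3 x
  refine ⟨p, hp, h3', ?_⟩
  rw [Nat.card_eq_fintype_card]
  have h4 : p.support.toFinset = Finset.univ.erase y := by
    ext x
    rw [List.mem_toFinset, h3' x]
    simp
  have h5 : p.support.toFinset.card = p.support.length :=
    List.toFinset_card_of_nodup hp.support_nodup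
  rw [h4, Finset.card_erase_of_mem (Finset.mem_univ y), SimpleGraph.Walk.length_support,
    Finset.card_univ] at h5
  have : 0 < Fintype.card V := Fintype.card_pos_iff.2 ⟨y⟩
  omega

theorem CND : S_CND := by
  classical
  intro V _ _ G hcard hno hmiss
  haveI := Fintype.ofFinite V
  refine ⟨?_, ?_, ?_⟩
  · rw [SimpleGraph.connected_iff]
    refine ⟨?_, inferInstance⟩
    intro v w
    obtain ⟨v', y, hv⟩ := hmiss v
    obtain ⟨w', y', hw⟩ := hmiss w
    obtain ⟨p, -, hp, -⟩ := miss_path G hv
    obtain ⟨q, -, hq, -⟩ := miss_path G hw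
    obtain ⟨z, hz⟩ : ∃ z : V, z ∉ ({y, y'} : Finset V) := by
      by_contra hcon
      push Not at hcon
      have h1 : (Finset.univ : Finset V) ⊆ {y, y'} := fun x _ => hcon x
      have h2 := Finset.card_le_card h1
      rw [Finset.card_univ, ← Nat.card_eq_fintype_card] at h2
      have h3 : ({y, y'} : Finset V).card ≤ 2 := Finset.card_le_two
      omega
    simp only [Finset.mem_insert, Finset.mem_singleton, not_or] at hz
    have hzp : z ∈ p.support := (hp z).2 hz.1
    have hzq : z ∈ q.support := (hq z).2 hz.2
    exact (p.takeUntil z hzp).reachable.trans (q.takeUntil z hzq).reachable.symm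
  · rintro ⟨u, v, p, hp, hall⟩
    exact hno p.support (list_of_walk G p hp) hall
  · intro v
    obtain ⟨w, y, h⟩ := hmiss v
    obtain ⟨p, hp, -, hlen⟩ := miss_path G h
    refine ⟨w, p, hp, fun a b q hq => ?_⟩
    have := path_length_lt G hno q hq
    omega

end Pool.Agent.E8helper9.CND
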